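import Pool.Agent.Q40.GV.Main

/-!
MP_5b7a2c_ag: the generic valuation ring which dominates a given local domain is log uniformizable,
in arbitrary dimension and arbitrary characteristic.

Let `R` be a base ring (each quotient domain is a field, or is of finite type over a regular domain
`R₁` such that `R₁` is `F`-finite, or formally smooth over a perfect field, or contained in the
quotient, which has characteristic zero). Let `O` be a local domain essentially of finite type over
`R` with countable fraction field `K`. The set `Zar O` of the valuation rings of `K` which dominate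
`O` is a nonempty compact Hausdorff space for the patch topology (the coarsest topology for which
all sets `{V | x ∈ V}` are open and closed). There is a dense `G_δ` subset of `Zar O` such that
every `V` in it is log uniformizable on `Spec A` for all `R`-subalgebras `A` of finite type of `V`
simultaneously, the residue field of `V` is algebraic over that of `O`, and the values of any two
nonzero nonunits of `V` are commensurable; if `R` is a field and `dim O ≥ 2`, then no positive
value of `V` is minimal. Therefore `V` has rational rank one and is not discrete.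
-/

set_option autoImplicit false

namespace Pool.Agent.Results.MP_5b7a2c_ag.GenericValuations

open IsLocalRing Pool.Agent.W418.LU2 Pool.Agent.TH188.QS Pool.Agent.Q40.GV

universe u

/-- The local ring of `Spec B` at the centre of the valuation ring `V`: the fractions of elements
of `B` whose denominators are units of `V`. -/
def centreRing {F : Type u} [Field F] (V : ValuationSubring F) (B : Subring F) : Subring F where
  carrier := {x | ∃ a ∈ B, ∃ b ∈ B, b ≠ 0 ∧ b⁻¹ ∈ V ∧ x = a * b⁻¹}
  mul_mem' := (lo V.toSubring B).mul_mem'
  one_mem' := (lo V.toSubring B).one_mem'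
  add_mem' := (lo V.toSubring B).add_mem'
  zero_mem' := (lo V.toSubring B).zero_mem'
  neg_mem' := (lo V.toSubring B).neg_mem'

/-- The chart `A[I / f]` of the blowing-up of `Spec A` in the ideal `I`. -/
def blowUpChart {F : Type u} [Field F] (A : Subring F) (I : Ideal A) (f : A) : Subring F :=
  Subring.closure ((A : Set F) ∪ {z | ∃ a ∈ I, z = (a : F) / (f : F)})

/-- `P` is a regular local ring and the zero set of `J` is a divisor with strict normal
crossings: the radical of `J` is generated by the product of some of the elements of a regular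
system of parameters. -/
def RegularPair (P : Type u) [CommRing P] (J : Ideal P) : Prop :=
  ∃ (_ : IsRegularLocalRing P) (n : ℕ) (x : Fin n → P) (s : Finset (Fin n)),
    Ideal.span (Set.range x) = IsLocalRing.maximalIdeal P ∧ ringKrullDim P = n ∧
      J.radical = Ideal.span {∏ i ∈ s, x i}

/-- The blowing-up of `X = Spec A` in `V(I)` is a log desingularization of `(X, V(D))` along the
valuation ring `V`. Here `f ∈ I` generates `I V`, the centre of the lift of the valuation lies in
the chart `Spec A[I / f]`, and the ideal `D I` defines the preimage of `V(D) ∪ V(I)`. -/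
def IsLogDesingularization {F : Type u} [Field F] (V : ValuationSubring F) (A : Subring F)
    (D I : Ideal A) : Prop :=
  ∃ f ∈ I, f ≠ 0 ∧ (∀ a ∈ I, (a : F) / (f : F) ∈ V) ∧
    RegularPair (centreRing V (blowUpChart A I f))
      (Ideal.span {z | ∃ a ∈ D * I, (z : F) = (a : F)})

/-- The valuation ring `V` is log uniformizable on `Spec A`. (The blowings-up in the ideals
`I₀ * I₁` are cofinal: the blowing-up in `I₀ * I₁` factors through the blowing-up in `I₀`.) -/
def IsLogUniformizable {F : Type u} [Field F] (V : ValuationSubring F) (A : Subring F) : Prop :=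
  ∀ D I₀ : Ideal A, D ≠ ⊥ → I₀ ≠ ⊥ →
    ∃ I₁ : Ideal A, I₁ ≠ ⊥ ∧ IsLogDesingularization V A D (I₀ * I₁)

/-- A ring of prime characteristic `p` which is a finite module over its ring of `p`-th powers. -/
def IsFFinite (R : Type u) [CommRing R] : Prop :=
  ∃ (p : ℕ) (_ : Fact p.Prime) (_ : CharP R p), (frobenius R p).Finite

/-- A ring which is formally smooth over a perfect field. -/
def IsFormallySmoothOverPerfectField (R : Type u) [CommRing R] : Prop :=
  ∃ (k : Type u) (_ : Field k) (_ : PerfectField k) (_ : Algebra k R), Algebra.FormallySmooth k R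

/-- The rings `R` over which the domains of finite type are considered: each quotient domain
`R / 𝔭` is a field, or it is of finite type over a regular domain `R₁` such that `R₁` is `F`-finite,
or `R₁` is formally smooth over a perfect field, or `R₁` is a subring of `R / 𝔭` and `R / 𝔭` has
characteristic zero. -/
def IsBaseRing (R : Type u) [CommRing R] : Prop :=
  ∀ 𝔭 : Ideal R, 𝔭.IsPrime → IsField (R ⧸ 𝔭) ∨
    ∃ (R₁ : Type u) (_ : CommRing R₁) (_ : IsDomain R₁) (_ : IsRegularRing R₁)
      (σ : R₁ →+* R ⧸ 𝔭), σ.FiniteType ∧
        (IsFFinite R₁ ∨ IsFormallySmoothOverPerfectField R₁ ∨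
          (Function.Injective σ ∧ CharZero (R ⧸ 𝔭)))

/-- The image of the `R`-algebra generated by `T`. -/
def adjoined {R K : Type u} [CommRing R] [Field K] (ρ : R →+* K) (T : Set K) : Subring K :=
  Subring.closure ((ρ.range : Set K) ∪ T)

/-- `B` is a localization of a finitely generated `R`-algebra. -/
def IsEssentiallyOfFiniteType {R K : Type u} [CommRing R] [Field K] (ρ : R →+* K)
    (B : Subring K) : Prop :=
  ∃ T : Set K, T.Finite ∧ adjoined ρ T ≤ B ∧
    ∀ b ∈ B, ∃ a ∈ adjoined ρ T, ∃ s ∈ adjoined ρ T, s ≠ 0 ∧ s⁻¹ ∈ B ∧ b = a * s⁻¹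

/-- The residue field of `V` is algebraic over the image of `O`: every element of `V` is a root of
a monic polynomial over `O` modulo the maximal ideal of `V`. -/
def IsResiduallyAlgebraic {K : Type u} [Field K] (O : Subring K) (V : ValuationSubring K) : Prop :=
  ∀ x ∈ V, ∃ P : Polynomial O, P.Monic ∧ V.valuation (P.eval₂ O.subtype x) < 1

/-- Any two positive values of `V` are commensurable. -/
def IsCommensurable {K : Type u} [Field K] (V : ValuationSubring K) : Prop :=
  ∀ x y : K, x ≠ 0 → y ≠ 0 → V.valuation x < 1 → V.valuation y < 1 →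
    ∃ n m : ℕ, 0 < n ∧ 0 < m ∧ V.valuation (x ^ n) = V.valuation (y ^ m)

/-- `V` has no smallest positive value. -/
def HasNoSmallestValue {K : Type u} [Field K] (V : ValuationSubring K) : Prop :=
  ∀ x : K, x ≠ 0 → V.valuation x < 1 → ∃ y : K, V.valuation x < V.valuation y ∧ V.valuation y < 1

lemma IsBaseRing.hj {R : Type u} [CommRing R] (h : IsBaseRing R) : HJ R :=
  BR.hj h

/-- The generic valuation ring dominating a local domain `O` essentially of finite type over a
base ring `R`, with countable fraction field `K`, is log uniformizable on all affine `R`-schemes of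
finite type which it dominates. -/
theorem result {R : Type} [CommRing R] (hR : IsBaseRing R) {K : Type} [Field K] [Countable K]
    (ρ : R →+* K) (O : Subring K) [IsLocalRing O] (hO : IsEssentiallyOfFiniteType ρ O)
    (hfrac : ∀ z : K, ∃ a ∈ O, ∃ b ∈ O, b ≠ 0 ∧ z = a * b⁻¹) :
    Nonempty (Zar O) ∧ CompactSpace (Zar O) ∧ T2Space (Zar O) ∧
      ∃ G : Set (Zar O), IsGδ G ∧ Dense G ∧ ∀ V ∈ G,
        (∀ T : Set K, T.Finite → adjoined ρ T ≤ V.1.toSubring →
          IsLogUniformizable V.1 (adjoined ρ T)) ∧
        IsResiduallyAlgebraic O V.1 ∧ IsCommensurable V.1 ∧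
        (IsField R → 2 ≤ ringKrullDim O → HasNoSmallestValue V.1) := by
  obtain ⟨T₀, hT₀, hAO, hOA⟩ := hO
  haveI hOn : IsNoetherianRing O := noeth_of_ess hR.hj ρ hT₀ hAO hOA
  refine ⟨nonempty_zar hfrac, inferInstance, inferInstance, ?_⟩
  have h4 : ∀ᶠ V : Zar O in residual (Zar O),
      IsField R → 2 ≤ ringKrullDim O → HasNoSmallestValue V.1 := by
    by_cases hF : IsField R
    · by_cases hd : 2 ≤ ringKrullDim O
      · filter_upwards [main_nd hfrac (heightTwo_field hF ρ hT₀ hAO hOA hd)] with V hV _ _
        exact hV
      · exact Filter.Eventually.of_forall fun V _ h => absurd h hd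
    · exact Filter.Eventually.of_forall fun V h => absurd h hF
  have h := (main_log hR.hj ρ hT₀ hAO hOA hfrac).and ((main_alg hfrac).and
    ((main_rank hfrac).and h4))
  obtain ⟨G, hGs, hG, hGd⟩ := mem_residual.1 h
  refine ⟨G, hG, hGd, fun V hV => ?_⟩
  obtain ⟨h1, h2, h3, h4⟩ := hGs hV
  refine ⟨fun T hT hTV => ?_, h2, h3, h4⟩
  lift T to Finset K using hT
  exact h1 T hTV

end Pool.Agent.Results.MP_5b7a2c_ag.GenericValuations
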