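import Pool.Agent.Q40.RP.Main

/-!
MP_5b7a2c_ag: the valuation ring of a random sequence of infinitely near rational points of a
regular local ring is log uniformizable, in arbitrary dimension and arbitrary characteristic.

Let `O` be a regular local ring of dimension `n ≥ 1` with fraction field `K` and regular parameters
`x 1, ..., x n`, and let `S` be a finite subset of `O` which contains `0` and whose elements are
pairwise incongruent modulo the maximal ideal (if the residue field is finite, `S` can be a full
set of representatives). We blow up the closed point of `Spec O` and choose a rational point of the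
exceptional divisor with homogeneous coordinates in `S`; its local ring has natural regular
parameters. We repeat this with the new local ring, and so on. So an infinite sequence `ω` of
nonzero vectors with coordinates in `S` defines an increasing sequence of local rings `O l`.

(1) Let `q` be the number of elements of `S` and let `J` be an ideal of `O` of order at most `μ`.
Among the `(q ^ n - 1) ^ l` words of length `l` there are at most `μ * (q ^ (n - 1) - 1) ^ l` words
for which the ideal `J O l` is not generated by a unit times a monomial in the parameters. So this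
proportion decreases exponentially in `l` (it is at most `μ / q ^ l`).
(2) If `ω` contains infinitely many toric cycles, then the union `V` of the rings `O l` is a
valuation ring of `K`, it is log uniformizable on the spectrum of each noetherian ring which is
birational to `O` in a neighbourhood of the centre, its residue field is that of `O`, and it is not
discrete if `n ≥ 2`.
(3) Almost all `ω` contain infinitely many toric cycles, and almost surely the values of `V` are
commensurable. In particular almost surely `V` is a log uniformizable valuation ring of rational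
rank one, which is not discrete if `n ≥ 2`.
-/

set_option autoImplicit false

namespace Pool.Agent.Results.MP_5b7a2c_ag.RandomPoints

open IsLocalRing MeasureTheory Pool.Agent.W418.LU2 Pool.Agent.TH188.QS Pool.Agent.Q40.RP

universe u

/-- The local ring of `Spec B` at the centre of the valuation ring `V`: the fractions of elements
of `B` whose denominators are units of `V`. -/
def centreRing {F : Type u} [Field F] (V : ValuationSubring F) (B : Subring F) : Subring F where
  carrier := {x | ∃ a ∈ B, ∃ b ∈ B, b ≠ 0 ∧ b⁻¹ ∈ V ∧ x = a * b⁻¹}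
  mul_mem' := by
    rintro x y ⟨a, ha, b, hb, hb0, hbA, rfl⟩ ⟨c, hc, d, hd, hd0, hdA, rfl⟩
    refine ⟨a * c, B.mul_mem ha hc, b * d, B.mul_mem hb hd, mul_ne_zero hb0 hd0, ?_, ?_⟩
    · rw [mul_inv]; exact V.mul_mem _ _ hbA hdA
    · rw [mul_inv]; ring
  one_mem' := ⟨1, B.one_mem, 1, B.one_mem, one_ne_zero, by rw [inv_one]; exact V.one_mem, by simp⟩
  add_mem' := by
    rintro x y ⟨a, ha, b, hb, hb0, hbA, rfl⟩ ⟨c, hc, d, hd, hd0, hdA, rfl⟩
    refine ⟨a * d + c * b, B.add_mem (B.mul_mem ha hd) (B.mul_mem hc hb), b * d,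
      B.mul_mem hb hd, mul_ne_zero hb0 hd0, ?_, ?_⟩
    · rw [mul_inv]; exact V.mul_mem _ _ hbA hdA
    · field_simp
  zero_mem' := ⟨0, B.zero_mem, 1, B.one_mem, one_ne_zero, by rw [inv_one]; exact V.one_mem,
    by simp⟩
  neg_mem' := by
    rintro x ⟨a, ha, b, hb, hb0, hbA, rfl⟩
    exact ⟨-a, B.neg_mem ha, b, hb, hb0, hbA, by ring⟩

/-- The chart `A[I / f]` of the blowing-up of `Spec A` in the ideal `I`. -/
def blowUpChart {F : Type u} [Field F] (A : Subring F) (I : Ideal A) (f : A) : Subring F :=
  Subring.closure ((A : Set F) ∪ {z | ∃ a ∈ I, z = (a : F) / (f : F)})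

/-- `P` is a regular local ring and the zero set of `J` is a divisor with strict normal
crossings: the radical of `J` is generated by the product of some of the elements of a regular
system of parameters. -/
def RegularPair (P : Type u) [CommRing P] (J : Ideal P) : Prop :=
  ∃ (_ : IsRegularLocalRing P) (n : ℕ) (x : Fin n → P) (s : Finset (Fin n)),
    Ideal.span (Set.range x) = IsLocalRing.maximalIdeal P ∧ ringKrullDim P = n ∧
      J.radical = Ideal.span {∏ i ∈ s, x i}

/-- The blowing-up of `X = Spec A` in `V(I)` is a log desingularization of `(X, V(D))` along the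
valuation ring `V`. Here `f ∈ I` generates `I V`, the centre of the lift of the valuation lies in
the chart `Spec A[I / f]`, and the ideal `D I` defines the preimage of `V(D) ∪ V(I)`. -/
def IsLogDesingularization {F : Type u} [Field F] (V : ValuationSubring F) (A : Subring F)
    (D I : Ideal A) : Prop :=
  ∃ f ∈ I, f ≠ 0 ∧ (∀ a ∈ I, (a : F) / (f : F) ∈ V) ∧
    RegularPair (centreRing V (blowUpChart A I f))
      (Ideal.span {z | ∃ a ∈ D * I, (z : F) = (a : F)})

/-- The valuation ring `V` is log uniformizable on `Spec A`. (The blowings-up in the ideals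
`I₀ * I₁` are cofinal: the blowing-up in `I₀ * I₁` factors through the blowing-up in `I₀`.) -/
def IsLogUniformizable {F : Type u} [Field F] (V : ValuationSubring F) (A : Subring F) : Prop :=
  ∀ D I₀ : Ideal A, D ≠ ⊥ → I₀ ≠ ⊥ →
    ∃ I₁ : Ideal A, I₁ ≠ ⊥ ∧ IsLogDesingularization V A D (I₀ * I₁)

section points

variable {K : Type u} [Field K] {n : ℕ}

/-- The fractions `E(y) / D(y)` of polynomials over `Q` such that the constant term of `D` is a unit
of `Q`. -/
noncomputable def localization (Q : Subring K) (y : Fin n → K) : Subring K where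
  carrier := {z | ∃ E D : MvPolynomial (Fin n) Q, IsUnit (MvPolynomial.constantCoeff D) ∧
    z = MvPolynomial.eval₂ Q.subtype y E / MvPolynomial.eval₂ Q.subtype y D}
  mul_mem' := by
    rintro _ _ ⟨E, D, hD, rfl⟩ ⟨E', D', hD', rfl⟩
    refine ⟨E * E', D * D', by rw [map_mul]; exact hD.mul hD', ?_⟩
    rw [MvPolynomial.eval₂_mul, MvPolynomial.eval₂_mul, div_mul_div_comm]
  one_mem' := ⟨1, 1, by rw [map_one]; exact isUnit_one, by
    rw [MvPolynomial.eval₂_one, div_one]⟩
  add_mem' := by
    rintro _ _ ⟨E, D, hD, rfl⟩ ⟨E', D', hD', rfl⟩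
    by_cases h : MvPolynomial.eval₂ Q.subtype y D = 0
    · refine ⟨E', D', hD', ?_⟩
      rw [h, div_zero, zero_add]
    · by_cases h' : MvPolynomial.eval₂ Q.subtype y D' = 0
      · refine ⟨E, D, hD, ?_⟩
        rw [h', div_zero, add_zero]
      · refine ⟨E * D' + D * E', D * D', by rw [map_mul]; exact hD.mul hD', ?_⟩
        rw [MvPolynomial.eval₂_mul, MvPolynomial.eval₂_add, MvPolynomial.eval₂_mul,
          MvPolynomial.eval₂_mul, div_add_div _ _ h h']
  zero_mem' := ⟨0, 1, by rw [map_one]; exact isUnit_one, by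
    rw [MvPolynomial.eval₂_zero, zero_div]⟩
  neg_mem' := by
    rintro _ ⟨E, D, hD, rfl⟩
    refine ⟨-E, D, hD, ?_⟩
    rw [MvPolynomial.eval₂_neg, neg_div]

/-- The parameters `x j` and `x i / x j - c i / c j` (for `i ≠ j`) of the point with homogeneous
coordinates `c` of the exceptional divisor, if `c j ≠ 0`. -/
def newParameters (j : Fin n) (c x : Fin n → K) (i : Fin n) : K :=
  if i = j then x j else x i / x j - c i / c j

/-- The local ring, with parameters, of the point with homogeneous coordinates `c` of the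
exceptional divisor of the blowing-up of the closed point of the local ring `s.1` with the
parameters `s.2`. Here `piv c` is the index of a nonzero coordinate of `c`. -/
noncomputable def nextPoint {O : Subring K} (piv : (Fin n → O) → Fin n)
    (s : Subring K × (Fin n → K)) (c : Fin n → O) : Subring K × (Fin n → K) :=
  (localization s.1 (newParameters (piv c) (fun i => (c i : K)) s.2),
    newParameters (piv c) (fun i => (c i : K)) s.2)

/-- The nonzero vectors with coordinates in `S`. -/
def Letter (n : ℕ) {O : Subring K} (S : Finset O) : Type u :=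
  {c : Fin n → O // (∀ i, c i ∈ S) ∧ c ≠ 0}

/-- The local ring, with parameters, of the infinitely near point of `O` defined by the word `w`. -/
noncomputable def pointOf {O : Subring K} {S : Finset O} (piv : (Fin n → O) → Fin n)
    (x : Fin n → O) {l : ℕ} (w : Fin l → Letter n S) : Subring K × (Fin n → K) :=
  (List.ofFn fun i => (w i).1).foldl (nextPoint piv) (O, fun i => (x i : K))

/-- The ideal generated by `J` in the local ring `s.1` is generated by an element of `J` which is
the product of a unit and a monomial in the parameters `s.2`. -/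
def IsMonomialAt {O : Subring K} (s : Subring K × (Fin n → K)) (J : Ideal O) : Prop :=
  ∃ f ∈ J, (∃ u : K, u ≠ 0 ∧ u ∈ s.1 ∧ u⁻¹ ∈ s.1 ∧ ∃ γ : Fin n → ℕ,
    (f : K) = u * ∏ i, s.2 i ^ γ i) ∧ ∀ g ∈ J, (g : K) / f ∈ s.1

/-- After every position, the sequence `ω` contains the toric cycle `a e₁, ..., a eₙ` for some
nonzero `a`. -/
def HasToricCycles {O : Subring K} {S : Finset O} (ω : ℕ → Letter n S) : Prop :=
  ∃ a : O, a ≠ 0 ∧ ∀ N : ℕ, ∃ p, N ≤ p ∧ ∀ t : Fin n, (ω (p + t)).1 = Pi.single t a

/-- `V` is the union of the local rings of the infinitely near points. -/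
def IsUnionOf (V : ValuationSubring K) {O : Subring K} {S : Finset O}
    (piv : (Fin n → O) → Fin n) (x : Fin n → O) (ω : ℕ → Letter n S) : Prop :=
  ∀ z : K, z ∈ V ↔ ∃ l : ℕ, z ∈ (pointOf piv x fun i : Fin l => ω i).1

/-- `Q` is the local ring of `Spec A[T]` at the centre of `V` for a finite subset `T` of `V` which
consists of fractions of elements of `A`. -/
def IsModification (V : ValuationSubring K) (A Q : Subring K) : Prop :=
  ∃ T : Set K, T.Finite ∧ (∀ t ∈ T, t ∈ V ∧ ∃ g ∈ A, g ≠ 0 ∧ t * g ∈ A) ∧
    Q = centreRing V (Subring.closure ((A : Set K) ∪ T))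

/-- Any two positive values of `V` are commensurable. -/
def IsCommensurable (V : ValuationSubring K) : Prop :=
  ∀ x y : K, x ≠ 0 → y ≠ 0 → V.valuation x < 1 → V.valuation y < 1 →
    ∃ n m : ℕ, 0 < n ∧ 0 < m ∧ V.valuation (x ^ n) = V.valuation (y ^ m)

/-- `V` has no smallest positive value. -/
def HasNoSmallestValue (V : ValuationSubring K) : Prop :=
  ∀ x : K, x ≠ 0 → V.valuation x < 1 → ∃ y : K, V.valuation x < V.valuation y ∧ V.valuation y < 1

/-- The residue field of `V` is that of `O`. -/
def HasSameResidueField (O : Subring K) (V : ValuationSubring K) : Prop :=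
  ∀ z ∈ V, ∃ a : O, V.valuation (z - a) < 1

end points

instance {K : Type u} [Field K] {n : ℕ} {O : Subring K} (S : Finset O) :
    Finite (Letter n S) := by
  classical
  refine Finite.of_injective (β := ↥(Fintype.piFinset fun _ : Fin n => S))
    (fun c => ⟨c.1, Fintype.mem_piFinset.2 c.2.1⟩) ?_
  intro a b h
  exact Subtype.ext (Subtype.mk.inj h)

noncomputable instance {K : Type u} [Field K] {n : ℕ} {O : Subring K} (S : Finset O) :
    Fintype (Letter n S) := Fintype.ofFinite _

instance {K : Type u} [Field K] {n : ℕ} {O : Subring K} (S : Finset O) :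
    MeasurableSpace (Letter n S) := ⊤

instance {K : Type u} [Field K] {n : ℕ} {O : Subring K} (S : Finset O) :
    MeasurableSingletonClass (Letter n S) := ⟨fun _ => trivial⟩

/-- The product of the uniform measures on the set of letters. -/
noncomputable def uniformMeasure {K : Type u} [Field K] (n : ℕ) {O : Subring K} (S : Finset O)
    [Nonempty (Letter n S)] : Measure (ℕ → Letter n S) :=
  Measure.infinitePi fun _ : ℕ => (PMF.uniformOfFintype (Letter n S)).toMeasure

/-- Random sequences of infinitely near rational points of a regular local ring. -/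
theorem result {K : Type u} [Field K] {O : Subring K} [IsRegularLocalRing O]
    (hfrac : ∀ z : K, ∃ a b : O, b ≠ 0 ∧ z = a / b)
    {n : ℕ} (hn : 1 ≤ n) (hdim : ringKrullDim O = n)
    {x : Fin n → O} (hx : Ideal.span (Set.range x) = maximalIdeal O)
    {S : Finset O} (hS0 : (0 : O) ∈ S) (hS : ∀ a ∈ S, ∀ b ∈ S, a ≠ b → IsUnit (a - b))
    (hS2 : 2 ≤ S.card) {piv : (Fin n → O) → Fin n}
    (hpiv : ∀ c : Fin n → O, c ≠ 0 → c (piv c) ≠ 0) [Nonempty (Letter n S)] :
    Nat.card (Letter n S) = S.card ^ n - 1 ∧
    (∀ (J : Ideal O) (μ l : ℕ), ¬ J ≤ maximalIdeal O ^ (μ + 1) →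
      Nat.card {w : Fin l → Letter n S // ¬ IsMonomialAt (pointOf piv x w) J} ≤
        μ * (S.card ^ (n - 1) - 1) ^ l) ∧
    (∀ ω : ℕ → Letter n S, HasToricCycles ω → ∃ V : ValuationSubring K, IsUnionOf V piv x ω ∧
      (∀ A : Subring K, A ≤ V.toSubring → IsNoetherianRing A →
        (∃ l : ℕ, IsModification V A (pointOf piv x fun i : Fin l => ω i).1) →
          IsLogUniformizable V A) ∧
      HasSameResidueField O V ∧ (2 ≤ n → HasNoSmallestValue V)) ∧
    ∀ᵐ ω ∂(uniformMeasure n S), HasToricCycles ω ∧
      ∀ V : ValuationSubring K, IsUnionOf V piv x ω → IsCommensurable V := by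
  classical
  have hd := dat_of (K := K) hS0 hS hpiv
  have hsq : ∀ (ω : ℕ → Letter n S) (l : ℕ), pointOf piv x (fun i : Fin l => ω i) =
      sq piv (st0 x) (fun l => (ω l).1) l := fun ω l =>
    (sq_eq piv (st0 x) (fun l => (ω l).1) l).symm
  have hun : ∀ (V : ValuationSubring K) (ω : ℕ → Letter n S), IsUnionOf V piv x ω ↔
      ∀ z, z ∈ V ↔ ∃ l, z ∈ (sq piv (st0 x) (fun l => (ω l).1) l).1 := by
    intro V ω
    unfold IsUnionOf
    simp only [hsq]
  refine ⟨?_, ?_, ?_, ?_⟩
  · rw [Nat.card_eq_fintype_card]
    exact card_Lt (n := n) hS0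
  · intro J μ l hJ
    refine le_trans (le_of_eq ?_) (bad_ideal (K := K) hx hdim.ge hn hd J μ l hJ)
    have hiff : ∀ w : Fin l → Letter n S, IsMonomialAt (pointOf piv x w) J ↔
        Pr (run piv (st0 x) (List.ofFn fun i => (w i).1)) ((fun a : O => (a : K)) '' J) := by
      intro w
      constructor
      · rintro ⟨f, hf, hm, hg⟩
        refine ⟨f, ⟨f, hf, rfl⟩, hm, ?_⟩
        rintro _ ⟨g, hg', rfl⟩
        exact hg g hg'
      · rintro ⟨_, ⟨f, hf, rfl⟩, hm, hg⟩
        exact ⟨f, hf, hm, fun g hg' => hg _ ⟨g, hg', rfl⟩⟩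
    rw [Nat.card_eq_fintype_card, Fintype.card_subtype, Finset.card_filter]
    unfold bad
    refine Finset.sum_congr rfl fun w _ => ?_
    by_cases h : IsMonomialAt (pointOf piv x w) J
    · rw [if_neg (not_not.2 h)]
      exact (if_pos ((hiff w).1 h)).symm
    · rw [if_pos h]
      exact (if_neg fun h' => h ((hiff w).2 h')).symm
  · rintro ω ⟨a, ha, hpat⟩
    obtain ⟨V, hV, -, h1, h2, h3⟩ := det (K := K) hfrac hx hdim.ge hd
      (ω := fun l => (ω l).1) (fun l => (ω l).2) ha hpat
    refine ⟨V, (hun V ω).2 hV, ?_, h2, h3⟩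
    rintro A hA hAn ⟨l, T, hT, hTV, hQ⟩
    obtain ⟨g, hg⟩ := fg_of (V := V) hT (fun t ht => (hTV t ht).1) (fun t ht => (hTV t ht).2) hQ
    rw [hsq] at hg
    exact h1 A hA hAn l g hg
  · obtain ⟨a, haS, ha⟩ : ∃ a ∈ S, a ≠ 0 := by
      have h1 : 0 < (S.erase 0).card := by
        rw [Finset.card_erase_of_mem hS0]
        omega
      obtain ⟨a, h⟩ := Finset.card_pos.1 h1
      exact ⟨a, Finset.mem_of_mem_erase h, Finset.ne_of_mem_erase h⟩
    have hsing : ∀ t : Fin n, (∀ i, (Pi.single t a : Fin n → O) i ∈ S) ∧
        (Pi.single t a : Fin n → O) ≠ 0 := by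
      intro t
      refine ⟨fun i => ?_, fun h => ?_⟩
      · by_cases hi : i = t
        · rw [hi, Pi.single_eq_same]; exact haS
        · rw [Pi.single_eq_of_ne hi]; exact hS0
      · have := congrFun h t
        rw [Pi.single_eq_same] at this
        exact ha this
    have hconst : (∀ i, (fun _ : Fin n => a) i ∈ S) ∧ (fun _ : Fin n => a) ≠ 0 :=
      ⟨fun _ => haS, fun h => ha (congrFun h (⟨0, by omega⟩ : Fin n))⟩
    filter_upwards [ae_pattern (Γ := Letter n S) (fun t : Fin n => ⟨Pi.single t a, hsing t⟩),
      ae_pattern (Γ := Letter n S) (fun _ : Fin 1 => ⟨fun _ => a, hconst⟩)] with ω h1 h2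
    have hpat : ∀ N, ∃ p, N ≤ p ∧ ∀ t : Fin n, (ω (p + t)).1 = Pi.single t a := by
      intro N
      obtain ⟨p, hp, hpu⟩ := h1 N
      exact ⟨p, hp, fun t => congrArg Subtype.val (hpu t)⟩
    refine ⟨⟨a, ha, hpat⟩, fun V hV => ?_⟩
    have hinf : ∀ N, ∃ l, N ≤ l ∧ ∀ i, (ω l).1 i ≠ 0 := by
      intro N
      obtain ⟨p, hp, hpu⟩ := h2 N
      refine ⟨p, hp, fun i => ?_⟩
      have h3 := congrArg Subtype.val (hpu 0)
      change (ω (p + 0)).1 = _ at h3
      rw [add_zero] at h3
      rw [h3]
      exact ha
    obtain ⟨-, -, hmo, -⟩ := det (K := K) hfrac hx hdim.ge hd (ω := fun l => (ω l).1)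
      (fun l => (ω l).2) ha hpat
    intro y z hy hz hy1 hz1
    exact sq_comm hd (fun l => (ω l).2) (gd_base (K := K) hx hdim.ge) ((hun V ω).1 hV) hmo hinf
      y z hy hz hy1 hz1

end Pool.Agent.Results.MP_5b7a2c_ag.RandomPoints
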