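import Pool.Agent.Q40.SP.Cnt

/-!
MP_5b7a2c_ag: log uniformization of the valuations whose centres on the quadratic transforms are
infinitely often in general position, in arbitrary dimension and arbitrary characteristic.

Let `O` be a regular local ring, not a field, with fraction field `K`, and let `V` be a valuation
ring of `K` which dominates `O`. Let `Q 0 = O`, and let `Q (l + 1)` be the local ring at the centre
of `V` of the blowing-up of the closed point of `Spec (Q l)`. The step from `Q l` to `Q (l + 1)` is
called spanning if the residue field of `Q l` is perfect and all elements of the maximal ideal of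
`Q l` which are not in its square have the same value. The second condition says that the centre of
`V` on the exceptional divisor `ℙ ^ (n - 1)` is not contained in a hyperplane defined over the
residue field, or that it is not on the strict transform of a regular hypersurface. For example, the
centre may be a closed point with the homogeneous coordinates `1, θ, ..., θ ^ (n - 1)` for an
element `θ` of degree at least `n`.

(1) If `J` is an ideal of `O` of order at most `μ`, and at least `μ` of the first `l` steps are
spanning, then the ideal generated by `J` in `Q l` is principal, and its zero set is a divisor with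
strict normal crossings.
(2) If infinitely many steps are spanning, then `V` is the union of the `Q l`, the values of `V` are
commensurable, and `V` is log uniformizable on the spectrum of each noetherian ring which is
birational to `Q l`, for some `l`, in a neighbourhood of the centre.

The proof: if the order of the transform of a function at a spanning step is not smaller than the
order `m ≥ 1` of the function, then its initial form is invariant under the translations along the
vector of the homogeneous coordinates of the centre, which are linearly independent over the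
residue field `κ`. Its partial derivatives are zero, so it is the Frobenius transform of a form over
the perfect field `κ` with the same property for the `p`-th powers of the coordinates, and one
concludes by induction on `m`.
-/

set_option autoImplicit false

namespace Pool.Agent.Results.MP_5b7a2c_ag.SpanningSteps

open IsLocalRing Pool.Agent.W418.LU2 Pool.Agent.TH188.QS Pool.Agent.Q40.RP Pool.Agent.Q40.SP

universe u

/-- The local ring of `Spec B` at the centre of the valuation ring `V`: the fractions of elements
of `B` whose denominators are units of `V`. -/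
def centreRing {F : Type u} [Field F] (V : ValuationSubring F) (B : Subring F) : Subring F where
  carrier := {x | ∃ a ∈ B, ∃ b ∈ B, b ≠ 0 ∧ b⁻¹ ∈ V ∧ x = a * b⁻¹}
  mul_mem' := by
    rintro x y ⟨a, ha, b, hb, hb0, hbA, rfl⟩ ⟨c, hc, d, hd, hd0, hdA, rfl⟩
    refine ⟨a * c, B.mul_mem ha hc, b * d, B.mul_mem hb hd, mul_ne_zero hb0 hd0, ?_, ?_⟩
    · rw [mul_inv]; exact V.mul_mem _ _ hbA hdA
    · rw [mul_inv]; ring
  one_mem' := ⟨1, B.one_mem, 1, B.one_mem, one_ne_zero, by rw [inv_one]; exact V.one_mem, by simp⟩
  add_mem' := by
    rintro x y ⟨a, ha, b, hb, hb0, hbA, rfl⟩ ⟨c, hc, d, hd, hd0, hdA, rfl⟩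
    refine ⟨a * d + c * b, B.add_mem (B.mul_mem ha hd) (B.mul_mem hc hb), b * d,
      B.mul_mem hb hd, mul_ne_zero hb0 hd0, ?_, ?_⟩
    · rw [mul_inv]; exact V.mul_mem _ _ hbA hdA
    · field_simp
  zero_mem' := ⟨0, B.zero_mem, 1, B.one_mem, one_ne_zero, by rw [inv_one]; exact V.one_mem,
    by simp⟩
  neg_mem' := by
    rintro x ⟨a, ha, b, hb, hb0, hbA, rfl⟩
    exact ⟨-a, B.neg_mem ha, b, hb, hb0, hbA, by ring⟩

/-- The chart `A[I / f]` of the blowing-up of `Spec A` in the ideal `I`. -/
def blowUpChart {F : Type u} [Field F] (A : Subring F) (I : Ideal A) (f : A) : Subring F :=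
  Subring.closure ((A : Set F) ∪ {z | ∃ a ∈ I, z = (a : F) / (f : F)})

/-- `P` is a regular local ring and the zero set of `J` is a divisor with strict normal
crossings: the radical of `J` is generated by the product of some of the elements of a regular
system of parameters. -/
def RegularPair (P : Type u) [CommRing P] (J : Ideal P) : Prop :=
  ∃ (_ : IsRegularLocalRing P) (n : ℕ) (x : Fin n → P) (s : Finset (Fin n)),
    Ideal.span (Set.range x) = IsLocalRing.maximalIdeal P ∧ ringKrullDim P = n ∧
      J.radical = Ideal.span {∏ i ∈ s, x i}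

/-- The blowing-up of `X = Spec A` in `V(I)` is a log desingularization of `(X, V(D))` along the
valuation ring `V`. Here `f ∈ I` generates `I V`, the centre of the lift of the valuation lies in
the chart `Spec A[I / f]`, and the ideal `D I` defines the preimage of `V(D) ∪ V(I)`. -/
def IsLogDesingularization {F : Type u} [Field F] (V : ValuationSubring F) (A : Subring F)
    (D I : Ideal A) : Prop :=
  ∃ f ∈ I, f ≠ 0 ∧ (∀ a ∈ I, (a : F) / (f : F) ∈ V) ∧
    RegularPair (centreRing V (blowUpChart A I f))
      (Ideal.span {z | ∃ a ∈ D * I, (z : F) = (a : F)})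

/-- The valuation ring `V` is log uniformizable on `Spec A`. (The blowings-up in the ideals
`I₀ * I₁` are cofinal: the blowing-up in `I₀ * I₁` factors through the blowing-up in `I₀`.) -/
def IsLogUniformizable {F : Type u} [Field F] (V : ValuationSubring F) (A : Subring F) : Prop :=
  ∀ D I₀ : Ideal A, D ≠ ⊥ → I₀ ≠ ⊥ →
    ∃ I₁ : Ideal A, I₁ ≠ ⊥ ∧ IsLogDesingularization V A D (I₀ * I₁)

section transforms

variable {K : Type u} [Field K]

/-- The valuation ring `V` dominates the local ring `O`. -/
def Dominates (V : ValuationSubring K) (O : Subring K) : Prop :=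
  O ≤ V.toSubring ∧ ∀ a ∈ O, a ≠ 0 → a⁻¹ ∈ V → a⁻¹ ∈ O

/-- The quadratic transform of `P` along `V`: the local ring at the centre of `V` of the blowing-up
of the closed point of `Spec P`. It is the local ring at the centre of `V` of the algebra generated
by the ratios `y / z` of elements of the maximal ideal, where `z` has the minimal value (in the
multiplicative notation of Mathlib, the maximal `V.valuation z`). -/
def quadraticTransform (V : ValuationSubring K) (P : Subring K) : Subring K :=
  centreRing V (Subring.closure ((P : Set K) ∪ {t | ∃ y ∈ P, ∃ z ∈ P, V.valuation y < 1 ∧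
    z ≠ 0 ∧ V.valuation z < 1 ∧
      (∀ w ∈ P, V.valuation w < 1 → V.valuation w ≤ V.valuation z) ∧ t = y / z}))

/-- The sequence of the quadratic transforms of `O` along `V`. -/
def transforms (V : ValuationSubring K) (O : Subring K) : ℕ → Subring K
  | 0 => O
  | l + 1 => quadraticTransform V (transforms V O l)

/-- The residue field of the local ring `P` is perfect, and all elements of the maximal ideal of `P`
which are not in its square have the same value (the centre of `V` on the blowing-up of the closed
point of `Spec P` is not on the strict transform of a regular hypersurface). -/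
def IsSpanning (V : ValuationSubring K) (P : Subring K) : Prop :=
  ∃ _ : IsLocalRing P, PerfectField (ResidueField P) ∧
    ∀ a b : P, a ∈ maximalIdeal P → a ∉ maximalIdeal P ^ 2 → b ∈ maximalIdeal P →
      b ∉ maximalIdeal P ^ 2 → V.valuation (a : K) = V.valuation (b : K)

/-- The ideal generated by `J` in the local ring `P` is generated by an element `f` of `J`, and its
zero set is a divisor with strict normal crossings in `Spec P`. -/
def IsMonomialAt {O : Subring K} (P : Subring K) (J : Ideal O) : Prop :=
  ∃ f ∈ J, (∀ g ∈ J, (g : K) / (f : K) ∈ P) ∧ ∃ h : (f : K) ∈ P,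
    RegularPair P (Ideal.span {(⟨(f : K), h⟩ : P)})

/-- `Q` is the local ring of `Spec A[T]` at the centre of `V` for a finite subset `T` of `V` which
consists of fractions of elements of `A`. -/
def IsModification (V : ValuationSubring K) (A Q : Subring K) : Prop :=
  ∃ T : Set K, T.Finite ∧ (∀ t ∈ T, t ∈ V ∧ ∃ g ∈ A, g ≠ 0 ∧ t * g ∈ A) ∧
    Q = centreRing V (Subring.closure ((A : Set K) ∪ T))

/-- Any two positive values of `V` are commensurable. -/
def IsCommensurable (V : ValuationSubring K) : Prop :=
  ∀ x y : K, x ≠ 0 → y ≠ 0 → V.valuation x < 1 → V.valuation y < 1 →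
    ∃ n m : ℕ, 0 < n ∧ 0 < m ∧ V.valuation (x ^ n) = V.valuation (y ^ m)

lemma nu_iff {V : ValuationSubring K} {y : K} : NU V.toSubring y ↔ V.valuation y < 1 := by
  unfold NU
  constructor
  · intro h
    by_contra hlt
    rw [not_lt] at hlt
    have h0 : y ≠ 0 := by
      rintro rfl
      rw [map_zero] at hlt
      exact absurd hlt (not_le.2 zero_lt_one)
    refine h ⟨h0, ?_⟩
    change y⁻¹ ∈ V
    rw [← V.valuation_le_one_iff, map_inv₀]
    exact inv_le_one_of_one_le₀ hlt
  · rintro h ⟨h0, h1⟩
    have h2 := (V.valuation_le_one_iff _).2 h1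
    rw [map_inv₀] at h2
    have h4 : V.valuation y ≠ 0 := (Valuation.ne_zero_iff _).2 h0
    exact absurd h2 (not_le.2 ((one_lt_inv₀ (zero_lt_iff.2 h4)).2 h))

lemma qt_iff (V : ValuationSubring K) (P : Subring K) :
    quadraticTransform V P = qt V.toSubring P := by
  unfold quadraticTransform qt
  have h1 : {t | ∃ y ∈ P, ∃ z ∈ P, V.valuation y < 1 ∧ z ≠ 0 ∧ V.valuation z < 1 ∧
      (∀ w ∈ P, V.valuation w < 1 → V.valuation w ≤ V.valuation z) ∧ t = y / z} =
      {t | ∃ y ∈ P, ∃ z, NU V.toSubring y ∧ Mi V.toSubring P z ∧ t = y * z⁻¹} := by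
    ext t
    constructor
    · rintro ⟨y, hy, z, hz, hy1, hz0, hz1, hmin, rfl⟩
      refine ⟨y, hy, z, nu_iff.2 hy1, ⟨hz, hz0, fun h => nu_iff.2 hz1 ⟨hz0, h⟩, fun w hw hwn => ?_⟩,
        div_eq_mul_inv _ _⟩
      have h4 : V.valuation z ≠ 0 := (Valuation.ne_zero_iff _).2 hz0
      change w * z⁻¹ ∈ V
      rw [← V.valuation_le_one_iff, map_mul, map_inv₀, ← div_eq_mul_inv,
        div_le_one₀ (zero_lt_iff.2 h4)]
      exact hmin w hw (nu_iff.1 hwn)
    · rintro ⟨y, hy, z, hyn, hz, rfl⟩
      refine ⟨y, hy, z, hz.mem, nu_iff.1 hyn, hz.ne, nu_iff.1 hz.NU, fun w hw hw1 => ?_,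
        (div_eq_mul_inv _ _).symm⟩
      have h4 : V.valuation z ≠ 0 := (Valuation.ne_zero_iff _).2 hz.ne
      have h5 : w * z⁻¹ ∈ V := hz.min w hw (nu_iff.2 hw1)
      rwa [← V.valuation_le_one_iff, map_mul, map_inv₀, ← div_eq_mul_inv,
        div_le_one₀ (zero_lt_iff.2 h4)] at h5
  rw [h1]
  rfl

end transforms

/-- Valuations with spanning quadratic transforms. -/
theorem result {K : Type u} [Field K] {O : Subring K} [IsRegularLocalRing O] (hO : ¬ IsField O)
    (hfrac : ∀ z : K, ∃ a b : O, b ≠ 0 ∧ z = a / b) (V : ValuationSubring K)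
    (hV : Dominates V O) :
    (∀ (J : Ideal O) (μ l : ℕ), ¬ J ≤ maximalIdeal O ^ (μ + 1) →
      μ ≤ {i | i < l ∧ IsSpanning V (transforms V O i)}.ncard →
        IsMonomialAt (transforms V O l) J) ∧
    ((∀ N, ∃ l, N ≤ l ∧ IsSpanning V (transforms V O l)) →
      (∀ z : K, z ∈ V ↔ ∃ l, z ∈ transforms V O l) ∧ IsCommensurable V ∧
      ∀ A : Subring K, A ≤ V.toSubring → IsNoetherianRing A →
        (∃ l, IsModification V A (transforms V O l)) → IsLogUniformizable V A) := by
  have hQs : ∀ l, transforms V O (l + 1) = qt V.toSubring (transforms V O l) := fun l =>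
    qt_iff V _
  have hG : ∀ i, IsSpanning V (transforms V O i) → ∀ _ : IsLocalRing (transforms V O i),
      PerfectField (ResidueField (transforms V O i)) ∧ Spn V (transforms V O i) := by
    rintro i ⟨_, h1, h2⟩ _
    exact ⟨h1, h2⟩
  have hreg0 : IsRegularLocalRing (transforms V O 0) := ‹IsRegularLocalRing O›
  refine ⟨fun J μ l hJ hl => ?_, fun hinf => ?_⟩
  · obtain ⟨f, hf, h1, h2, h3⟩ := main_fin (Q := transforms V O) hreg0 hO hV.1 hV.2 hQs hG hJ hl
    exact ⟨f, hf, h1, h2, h3⟩
  · obtain ⟨-, h1, h2, h3⟩ := main (Q := transforms V O) hreg0 hO (fun w => by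
      obtain ⟨a, b, hb, rfl⟩ := hfrac w
      exact ⟨a, a.2, b, b.2, fun h => hb (Subtype.ext h), div_eq_mul_inv _ _⟩) hV.1 hV.2 hQs
      (fun N => by
        obtain ⟨l, hl, h⟩ := hinf N
        exact ⟨l, hl, hG l h⟩)
    refine ⟨h1, h2, ?_⟩
    rintro A hA hAn ⟨l, T, hT, hTV, hQ⟩
    obtain ⟨g, hg⟩ := fg_of (V := V) hT (fun t ht => (hTV t ht).1) (fun t ht => (hTV t ht).2) hQ
    exact h3 A hA hAn l g hg

end Pool.Agent.Results.MP_5b7a2c_ag.SpanningSteps
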